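import Mathlib
import Pool.Agent.Helper96.WormFinal

set_option autoImplicit false
open MeasureTheory ProbabilityTheory
open scoped NNReal ENNReal
open Pool.Agent.Helper96.Worm

namespace Pool.Agent.Results.MP_e1341d_pr.WormsInfiniteMean

/-- There is a length distribution `m` on the positive integers with infinite mean for which the
critical intensity of the random length worms model on `ℤ²` is strictly positive. -/
theorem result : ∃ m : PMF ℕ, m 0 = 0 ∧ (∑' l : ℕ, (l : ℝ≥0∞) * m l) = ⊤ ∧
    0 < criticalIntensity m :=
  ⟨lenLaw, lenLaw_zero, mean_lenLaw, criticalIntensity_pos⟩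

end Pool.Agent.Results.MP_e1341d_pr.WormsInfiniteMean
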